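import Mathlib
import Pool.Agent.HFW.FH

set_option autoImplicit false

/-!
# From a product of two projective spaces to a product of two affine spaces
-/

namespace Pool.Agent.PLR

open NumberField
open Pool.Agent.HFW (pt pt_height pt_rep pt_injective pt_of_rep aff_finite)

namespace Aff2A

variable {K : Type} [Field K] [NumberField K] {r : ℕ}

/-- two points `(1 : s i)` -/
noncomputable def pp (s : Fin 2 → Fin r → K) : Fin 2 → Projectivization K (Fin (r + 1) → K) :=
  fun i => pt (s i)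

theorem pp_injective : Function.Injective
    (pp : (Fin 2 → Fin r → K) → Fin 2 → Projectivization K (Fin (r + 1) → K)) :=
  fun _ _ h => funext fun i => pt_injective (congrFun h i)

theorem finite_proj (K : Type) [Field K] [NumberField K] (r : ℕ) (B : ℝ) :
    {P : Fin 2 → Projectivization K (Fin r → K) | ∀ i, (P i).mulHeight ≤ B}.Finite :=
  (Set.Finite.pi' fun _ : Fin 2 => HTK.pts_finite K r B).subset fun _ hP => hP

theorem finite_aff (B : ℝ) : {s : Fin 2 → Fin r → K |
    ∀ i, Height.mulHeight (Fin.cons 1 (s i) : Fin (r + 1) → K) ≤ B}.Finite :=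
  (Set.Finite.pi' fun _ : Fin 2 => aff_finite (K := K) (r := r) B).subset fun _ hs => hs

end Aff2A

open Aff2A in
/-- From the projective spaces to the affine spaces. -/
theorem aff2 {K : Type} [Field K] [NumberField K] {r : ℕ} (Good : (Fin 2 → Fin r → K) → Prop)
    (hden : ∀ ε : ℝ, 0 < ε → ∃ B₀ : ℝ, ∀ B : ℝ, B₀ ≤ B →
      ({P : Fin 2 → Projectivization K (Fin (r + 1) → K) | (∀ i, (P i).mulHeight ≤ B) ∧
        ((∃ i, (P i).rep 0 = 0) ∨ ¬ Good fun i l => (P i).rep l.succ / (P i).rep 0)}.ncard : ℝ) ≤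
          ε * ({P : Fin 2 → Projectivization K (Fin (r + 1) → K) |
            ∀ i, (P i).mulHeight ≤ B}.ncard : ℝ))
    (ε : ℝ) (hε : 0 < ε) : ∃ B₀ : ℝ, ∀ B : ℝ, B₀ ≤ B →
      (({s : Fin 2 → Fin r → K | (∀ i, Height.mulHeight (Fin.cons 1 (s i) : Fin (r + 1) → K) ≤ B) ∧
          ¬ Good s}.ncard : ℕ) : ℝ) ≤
        ε * ({s : Fin 2 → Fin r → K |
          ∀ i, Height.mulHeight (Fin.cons 1 (s i) : Fin (r + 1) → K) ≤ B}.ncard : ℕ) := by
  obtain ⟨B₀, h₀⟩ := hden (min ε 1 / 2) (by positivity)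
  refine ⟨B₀, fun B hB => ?_⟩
  have h1 := h₀ B hB
  set A : Set (Fin 2 → Projectivization K (Fin (r + 1) → K)) :=
    {P | ∀ i, (P i).mulHeight ≤ B} with hA
  set b : Set (Fin 2 → Projectivization K (Fin (r + 1) → K)) := {P | (∀ i, (P i).mulHeight ≤ B) ∧
    ((∃ i, (P i).rep 0 = 0) ∨ ¬ Good fun i l => (P i).rep l.succ / (P i).rep 0)} with hb
  set S : Set (Fin 2 → Fin r → K) :=
    {s | ∀ i, Height.mulHeight (Fin.cons 1 (s i) : Fin (r + 1) → K) ≤ B} with hS
  set T : Set (Fin 2 → Fin r → K) :=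
    {s | (∀ i, Height.mulHeight (Fin.cons 1 (s i) : Fin (r + 1) → K) ≤ B) ∧ ¬ Good s} with hT
  have hAf : A.Finite := finite_proj K (r + 1) B
  have hbf : b.Finite := hAf.subset fun P hP => hP.1
  have hSf : S.Finite := finite_aff B
  have h2 : T.ncard ≤ b.ncard := by
    rw [← Set.ncard_image_of_injective T pp_injective]
    refine Set.ncard_le_ncard ?_ hbf
    rintro _ ⟨s, hs, rfl⟩
    refine ⟨fun i => ?_, Or.inr ?_⟩
    · exact (pt_height (s i)).trans_le (hs.1 i)
    · have h3 : (fun i l => (pp s i).rep l.succ / (pp s i).rep 0) = s :=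
        funext fun i => (pt_rep (s i)).2
      rw [h3]
      exact hs.2
  have h3 : A.ncard ≤ S.ncard + b.ncard := by
    rw [← Set.ncard_image_of_injective S pp_injective]
    refine (Set.ncard_le_ncard ?_ ((hSf.image _).union hbf)).trans (Set.ncard_union_le _ _)
    intro P hP
    by_cases h0 : ∃ i, (P i).rep 0 = 0
    · exact Or.inr ⟨hP, Or.inl h0⟩
    · have h0' : ∀ i, (P i).rep 0 ≠ 0 := fun i h => h0 ⟨i, h⟩
      refine Or.inl ⟨fun i l => (P i).rep l.succ / (P i).rep 0, fun i => ?_,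
        funext fun i => pt_of_rep (P i) (h0' i)⟩
      have h4 := pt_height (fun l => (P i).rep l.succ / (P i).rep 0)
      rw [pt_of_rep (P i) (h0' i)] at h4
      exact h4.symm.trans_le (hP i)
  have h2' : (T.ncard : ℝ) ≤ b.ncard := by exact_mod_cast h2
  have h3' : (A.ncard : ℝ) ≤ S.ncard + b.ncard := by exact_mod_cast h3
  have h4 : min ε 1 / 2 * (A.ncard : ℝ) ≤ 1 / 2 * A.ncard := by
    refine mul_le_mul_of_nonneg_right ?_ (Nat.cast_nonneg _)
    have := min_le_right ε 1
    linarith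
  have h5 : (A.ncard : ℝ) ≤ 2 * S.ncard := by linarith
  calc (T.ncard : ℝ) ≤ b.ncard := h2'
    _ ≤ min ε 1 / 2 * A.ncard := h1
    _ ≤ min ε 1 / 2 * (2 * S.ncard) := mul_le_mul_of_nonneg_left h5 (by positivity)
    _ = min ε 1 * S.ncard := by ring
    _ ≤ ε * S.ncard := mul_le_mul_of_nonneg_right (min_le_left _ _) (Nat.cast_nonneg _)

end Pool.Agent.PLR
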