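import Mathlib
import Pool.Agent.PLY.Defs

set_option autoImplicit false

/-!
# Random numerators and denominators: definitions
-/

namespace Pool.Agent.PLR

open Pool.Agent.PNH (Tup)
open Pool.Agent.AAP (fm)

/-- Numerator `u / b` and denominator `w / b'`, where `t 0 = (b, u)` and `t 1 = (b', w)`: the pair
`b' u`, `b w`. -/
noncomputable def rf {A : Type} [CommRing A] {d : ℕ} (t : Fin 2 → Fin (d + 2) → A) : Tup 1 A :=
  ![MvPolynomial.C (t 1 0) * fm fun j : Fin (d + 1) => t 0 j.succ,
    MvPolynomial.C (t 0 0) * fm fun j : Fin (d + 1) => t 1 j.succ]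

/-- Two vectors from one. -/
def sp {A : Type} {r : ℕ} (t : Fin (2 * r) → A) : Fin 2 → Fin r → A :=
  fun i l => t (finProdFinEquiv (i, l))

end Pool.Agent.PLR
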