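import Mathlib
import Pool.Agent.PLR.Defs
import Pool.Agent.PLY.Cbd

set_option autoImplicit false

/-!
# The number of the bad classes: numerator and denominator
-/

namespace Pool.Agent.PLR

open Pool.Agent.AAP (Free)

/-- the number of the bad classes -/
theorem card_bad2 {k : Type} [Field k] [Finite k] {d : ℕ} (hd : 2 ≤ d) (hq : 8 * d ≤ Nat.card k) :
    (({t : Fin (2 * (d + 2)) → k | ¬ (sp t 0 0 = 0 ∧ sp t 1 0 ≠ 0 ∧
      Free fun j : Fin (d + 1) => sp t 0 j.succ)}).ncard : ℝ) ≤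
      (1 - (1 / (8 * (d : ℝ))) * ((Nat.card k : ℝ))⁻¹) * (Nat.card k : ℝ) ^ (2 * (d + 2)) := by
  classical
  obtain ⟨A, hA⟩ : ∃ A : Set (Fin (d + 2) → k),
    A = {s : Fin (d + 2) → k | s 0 = 0 ∧ Free fun i : Fin (d + 1) => s i.succ} := ⟨_, rfl⟩
  obtain ⟨B, hB⟩ : ∃ B : Set (Fin (d + 2) → k), B = {s : Fin (d + 2) → k | s 0 ≠ 0} := ⟨_, rfl⟩
  obtain ⟨G, hG⟩ : ∃ G : Set (Fin (2 * (d + 2)) → k),
    G = {t : Fin (2 * (d + 2)) → k | sp t 0 0 = 0 ∧ sp t 1 0 ≠ 0 ∧
      Free fun j : Fin (d + 1) => sp t 0 j.succ} := ⟨_, rfl⟩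
  obtain ⟨q, hqd⟩ : ∃ q : ℝ, q = (Nat.card k : ℝ) := ⟨_, rfl⟩
  have hd0 : (0 : ℝ) < d := by exact_mod_cast (by omega : 0 < d)
  have hq2 : 2 ≤ q := by
    rw [hqd]
    exact_mod_cast (by omega : 2 ≤ Nat.card k)
  have hq0 : 0 < q := by linarith
  -- the first block
  have hA1 : (A.ncard : ℝ) + (Aᶜ.ncard : ℝ) = q ^ (d + 2) := by
    have h1 : A.ncard + Aᶜ.ncard = Nat.card k ^ (d + 2) := by
      rw [Set.ncard_add_ncard_compl, Nat.card_fun, Nat.card_fin]
    rw [hqd]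
    exact_mod_cast h1
  have hA2 : (Aᶜ.ncard : ℝ) ≤ (1 - (1 / (4 * (d : ℝ))) * q⁻¹) * q ^ (d + 2) := by
    have h1 := PLY.card_bad (k := k) hd hq
    rw [hA, hqd]
    exact h1
  have hA3 : q ^ (d + 1) / (4 * d) ≤ (A.ncard : ℝ) := by
    have h1 : (1 - (1 / (4 * (d : ℝ))) * q⁻¹) * q ^ (d + 2) =
        q ^ (d + 2) - q ^ (d + 1) / (4 * d) := by
      field_simp
      ring
    rw [h1] at hA2
    linarith
  -- the second block
  have hB1 : (B.ncard : ℝ) = q ^ (d + 2) - q ^ (d + 1) := by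
    have h1 : B.ncard + Bᶜ.ncard = Nat.card k ^ (d + 2) := by
      rw [Set.ncard_add_ncard_compl, Nat.card_fun, Nat.card_fin]
    have h2 : Bᶜ = (fun a : Fin (d + 1) → k => (Fin.cons 0 a : Fin (d + 2) → k)) '' Set.univ := by
      rw [hB]
      ext s
      constructor
      · intro h3
        have h4 : s 0 = 0 := by
          by_contra h5
          exact h3 h5
        refine ⟨fun i => s i.succ, trivial, ?_⟩
        funext i
        refine Fin.cases ?_ (fun i => ?_) i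
        · exact h4.symm
        · rfl
      · rintro ⟨a, -, rfl⟩
        exact fun h3 => h3 rfl
    have h3 : Bᶜ.ncard = Nat.card k ^ (d + 1) := by
      have hi : Function.Injective fun a : Fin (d + 1) → k => (Fin.cons 0 a : Fin (d + 2) → k) :=
        fun a b hab => (Fin.cons_injective2 hab).2
      rw [h2, Set.ncard_image_of_injective _ hi, Set.ncard_univ, Nat.card_fun, Nat.card_fin]
    rw [h3] at h1
    rw [hqd]
    have h4 : (B.ncard : ℝ) + (Nat.card k : ℝ) ^ (d + 1) = (Nat.card k : ℝ) ^ (d + 2) := by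
      exact_mod_cast h1
    linarith
  -- the product
  have hG1 : A.ncard * B.ncard ≤ G.ncard := by
    rw [← Set.ncard_prod]
    refine Set.ncard_le_ncard_of_injOn (fun p x => (![p.1, p.2] (finProdFinEquiv.symm x).1)
      (finProdFinEquiv.symm x).2) ?_ ?_ (Set.toFinite _)
    · rintro ⟨a, b⟩ ⟨ha, hb⟩
      rw [hA] at ha
      rw [hB] at hb
      rw [hG]
      have h1 : sp (fun x => (![a, b] (finProdFinEquiv.symm x).1)
          (finProdFinEquiv.symm x).2) 0 = a := by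
        funext l
        simp [sp]
      have h2 : sp (fun x => (![a, b] (finProdFinEquiv.symm x).1)
          (finProdFinEquiv.symm x).2) 1 = b := by
        funext l
        simp [sp]
      refine ⟨?_, ?_, ?_⟩
      · exact (congrFun h1 0).trans ha.1
      · exact fun h3 => hb ((congrFun h2 0).symm.trans h3)
      · have h4 := ha.2
        rw [← h1] at h4
        exact h4
    · rintro ⟨a, b⟩ - ⟨a', b'⟩ - h
      have h1 : ∀ i l, (![a, b] i) l = (![a', b'] i) l := by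
        intro i l
        have h2 := congrFun h (finProdFinEquiv (i, l))
        simp only [Equiv.symm_apply_apply] at h2
        exact h2
      refine Prod.ext (funext fun l => h1 0 l) (funext fun l => h1 1 l)
  have hG2 : (G.ncard : ℝ) + (Gᶜ.ncard : ℝ) = q ^ (2 * (d + 2)) := by
    have h1 : G.ncard + Gᶜ.ncard = Nat.card k ^ (2 * (d + 2)) := by
      rw [Set.ncard_add_ncard_compl, Nat.card_fun, Nat.card_fin]
    rw [hqd]
    exact_mod_cast h1
  have hG3 : (A.ncard : ℝ) * (B.ncard : ℝ) ≤ (G.ncard : ℝ) := by exact_mod_cast hG1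
  have h1 : {t : Fin (2 * (d + 2)) → k | ¬ (sp t 0 0 = 0 ∧ sp t 1 0 ≠ 0 ∧
      Free fun j : Fin (d + 1) => sp t 0 j.succ)} = Gᶜ := by
    rw [hG]
    rfl
  rw [h1, ← hqd]
  have h2 : q ^ (d + 2) / 2 ≤ (B.ncard : ℝ) := by
    rw [hB1, pow_succ q (d + 1)]
    have h3 : 0 < q ^ (d + 1) := pow_pos hq0 _
    nlinarith
  have h3 : q ^ (d + 1) / (4 * d) * (q ^ (d + 2) / 2) ≤ (A.ncard : ℝ) * (B.ncard : ℝ) :=
    mul_le_mul hA3 h2 (by positivity) (Nat.cast_nonneg _)
  have h4 : (1 - (1 / (8 * (d : ℝ))) * q⁻¹) * q ^ (2 * (d + 2)) =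
      q ^ (2 * (d + 2)) - q ^ (d + 1) / (4 * d) * (q ^ (d + 2) / 2) := by
    rw [show 2 * (d + 2) = (d + 1) + (d + 2) + 1 by omega, pow_succ, pow_add]
    field_simp
    ring
  rw [h4]
  linarith

end Pool.Agent.PLR
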