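import Mathlib
import Pool.Agent.LIM.NullS

set_option autoImplicit false

/-!
# Cylinders over null sets are null
-/

namespace Pool.Agent.PLR

open Pool.Agent.FAM (Cube)
open Pool.Agent.LIM (Null)

/-- a set given by a condition of density zero on some of the coordinates has density zero -/
theorem null_cyl {R' R : ℕ} (ι : Fin R' → Fin R) (hι : Function.Injective ι)
    {S : Set (Fin R' → ℤ)} (hS : Null S) : Null {s : Fin R → ℤ | (fun i => s (ι i)) ∈ S} := by
  classical
  intro ε hε
  obtain ⟨H₀, h⟩ := hS ε hε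
  refine ⟨H₀, fun H hH => ?_⟩
  have h1 := h H hH
  have hcard : Fintype.card {j : Fin R // ¬ j ∈ Set.range ι} + R' = R := by
    have h3 : Fintype.card {j : Fin R // j ∈ Set.range ι} = R' := by
      have h4 := Fintype.card_congr (Equiv.ofInjective ι hι)
      rw [Fintype.card_fin] at h4
      refine Eq.trans ?_ h4.symm
      exact Fintype.card_congr (Equiv.refl _)
    have h5 := Fintype.card_subtype_compl (fun j : Fin R => j ∈ Set.range ι)
    rw [h3, Fintype.card_fin] at h5
    have h6 : R' ≤ R := by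
      have := Fintype.card_le_of_injective ι hι
      simpa using this
    omega
  let Q : Finset ({j : Fin R // ¬ j ∈ Set.range ι} → ℤ) :=
    Fintype.piFinset fun _ => Finset.Icc (-(H : ℤ)) H
  have hQ : Q.card = (2 * H + 1) ^ Fintype.card {j : Fin R // ¬ j ∈ Set.range ι} := by
    simp only [Q]
    rw [Fintype.card_piFinset, Finset.prod_const, Int.card_Icc, Finset.card_univ]
    congr 1
    omega
  have h2 : ((Cube R H : Set (Fin R → ℤ)) ∩ {s : Fin R → ℤ | (fun i => s (ι i)) ∈ S}).ncard ≤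
      (((Cube R' H : Set (Fin R' → ℤ)) ∩ S) ×ˢ
        (Q : Set ({j : Fin R // ¬ j ∈ Set.range ι} → ℤ))).ncard := by
    refine Set.ncard_le_ncard_of_injOn (fun s => (fun i => s (ι i), fun j => s j.1)) ?_ ?_ ?_
    · rintro s ⟨h3, h4⟩
      have h5 : ∀ j, s j ∈ Finset.Icc (-(H : ℤ)) H := by
        have h6 : s ∈ Cube R H := h3
        unfold Cube at h6
        exact Fintype.mem_piFinset.1 h6
      refine ⟨⟨?_, h4⟩, ?_⟩
      · change (fun i => s (ι i)) ∈ Cube R' H
        unfold Cube
        exact Fintype.mem_piFinset.2 fun i => h5 _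
      · change (fun j : {j : Fin R // ¬ j ∈ Set.range ι} => s j.1) ∈ Q
        exact Fintype.mem_piFinset.2 fun j => h5 _
    · rintro s _ s' _ h3
      have h4 := (Prod.ext_iff.1 h3).1
      have h5 := (Prod.ext_iff.1 h3).2
      funext j
      by_cases hj : j ∈ Set.range ι
      · obtain ⟨i, rfl⟩ := hj
        exact congrFun h4 i
      · exact congrFun h5 ⟨j, hj⟩
    · exact (((Finset.finite_toSet _).subset Set.inter_subset_left).prod (Finset.finite_toSet _))
  rw [Set.ncard_prod, Set.ncard_coe_finset, hQ] at h2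
  have h3 : (((Cube R H : Set (Fin R → ℤ)) ∩ {s : Fin R → ℤ | (fun i => s (ι i)) ∈ S}).ncard : ℝ) ≤
      (((Cube R' H : Set (Fin R' → ℤ)) ∩ S).ncard : ℝ) *
        (2 * (H : ℝ) + 1) ^ Fintype.card {j : Fin R // ¬ j ∈ Set.range ι} := by
    exact_mod_cast h2
  refine h3.trans ?_
  calc (((Cube R' H : Set (Fin R' → ℤ)) ∩ S).ncard : ℝ) *
        (2 * (H : ℝ) + 1) ^ Fintype.card {j : Fin R // ¬ j ∈ Set.range ι} ≤
      (ε * (2 * (H : ℝ) + 1) ^ R') *
        (2 * (H : ℝ) + 1) ^ Fintype.card {j : Fin R // ¬ j ∈ Set.range ι} :=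
        mul_le_mul_of_nonneg_right h1 (by positivity)
    _ = ε * (2 * (H : ℝ) + 1) ^ R := by
        rw [mul_assoc, ← pow_add, add_comm R', hcard]

end Pool.Agent.PLR
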