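import Mathlib
import Pool.Agent.PLR.Defs
import Pool.Agent.HTK.Defs
import Pool.Agent.HTK.Rep
import Pool.Agent.HTK.Low
import Pool.Agent.HTK.Den
import Pool.Agent.LIM.Defs

set_option autoImplicit false

/-!
# Null sets of lattice points have density zero by height, two projective spaces
-/

namespace Pool.Agent.PLR

open NumberField
open Pool.Agent.FAM (Cube)
open Pool.Agent.HTK (exists_rep_pt exists_rep low)
open Pool.Agent.AAP (vc)
open Pool.Agent.LIM (Null)

/-- from boxes to heights -/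
theorem den2 (K : Type) [Field K] [NumberField K] (r : ℕ) (hr : 2 ≤ r) {m R : ℕ}
    (ω : Module.Basis (Fin m) ℤ (𝓞 K)) (e : Fin R ≃ Fin (2 * r) × Fin m)
    (Bad : (Fin 2 → Fin r → K) → Prop)
    (hsc : ∀ (c : Fin 2 → K) (t : Fin 2 → Fin r → K), (∀ i, c i ≠ 0) → Bad t →
      Bad fun i => c i • t i)
    (hnull : Null {z : Fin R → ℤ | Bad (sp fun i => ((vc ω e z i : 𝓞 K) : K))})
    (ε : ℝ) (hε : 0 < ε) :
    ∃ B₀ : ℝ, ∀ B : ℝ, B₀ ≤ B →
      ({P : Fin 2 → Projectivization K (Fin r → K) | (∀ i, (P i).mulHeight ≤ B) ∧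
        Bad fun i => (P i).rep}.ncard : ℝ) ≤
        ε * ({P : Fin 2 → Projectivization K (Fin r → K) | ∀ i, (P i).mulHeight ≤ B}.ncard : ℝ) := by
  classical
  obtain ⟨C, hC, U, hU, hrep⟩ := exists_rep_pt K r
  obtain ⟨C₁, hC₁, hco⟩ := exists_rep K ω
  obtain ⟨c, B₁, hc, hlow⟩ := low K r hr
  set n := Module.finrank ℚ K with hn
  have hn0 : 0 < n := Module.finrank_pos
  have hnR : (n : ℝ) ≠ 0 := by exact_mod_cast hn0.ne'
  have hm : m = n := by
    rw [hn, ← RingOfIntegers.rank K, Module.finrank_eq_card_basis ω, Fintype.card_fin]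
  have hR : R = 2 * r * n := by
    have := Fintype.card_congr e
    rw [Fintype.card_fin, Fintype.card_prod, Fintype.card_fin, Fintype.card_fin, hm] at this
    exact this
  obtain ⟨H₀, hH₀⟩ := hnull (ε * c ^ 2 / (5 * (C₁ * C)) ^ R) (by positivity)
  set W : ℝ := max 1 (H₀ : ℝ) / (C₁ * C) with hW
  have hCC : 0 < C₁ * C := mul_pos hC₁ hC
  have hW0 : 0 < W := div_pos (lt_of_lt_of_le one_pos (le_max_left _ _)) hCC
  refine ⟨max B₁ (W ^ n), fun B hB => ?_⟩
  have hB1 : B₁ ≤ B := (le_max_left _ _).trans hB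
  have hB2 : W ^ n ≤ B := (le_max_right _ _).trans hB
  have hB0 : 0 ≤ B := (pow_nonneg hW0.le n).trans hB2
  set T : ℝ := B ^ ((n : ℝ)⁻¹) with hT
  have hT0 : 0 ≤ T := Real.rpow_nonneg hB0 _
  have hTn : T ^ n = B := by
    rw [hT, ← Real.rpow_natCast, ← Real.rpow_mul hB0, inv_mul_cancel₀ hnR, Real.rpow_one]
  have hWT : W ≤ T := by
    by_contra hlt
    push Not at hlt
    have := pow_lt_pow_left₀ hlt hT0 hn0.ne'
    rw [hTn] at this
    exact absurd hB2 (not_le.2 this)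
  set Y : ℝ := C₁ * (C * T) with hY
  have hYW : max 1 (H₀ : ℝ) ≤ Y := by
    have h1 : C₁ * C * W ≤ C₁ * C * T := mul_le_mul_of_nonneg_left hWT hCC.le
    rw [hW, mul_div_cancel₀ _ hCC.ne'] at h1
    rw [hY, ← mul_assoc]
    exact h1
  have hY1 : 1 ≤ Y := (le_max_left _ _).trans hYW
  have hYH : (H₀ : ℝ) ≤ Y := (le_max_right _ _).trans hYW
  set H : ℕ := ⌈Y⌉₊ with hH
  have hHY : Y ≤ H := Nat.le_ceil Y
  have hHY' : (H : ℝ) ≤ Y + 1 := (Nat.ceil_lt_add_one (by linarith)).le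
  have hHH : H₀ ≤ H := by exact_mod_cast hYH.trans hHY
  -- the coordinates
  set Z : (Fin 2 → Projectivization K (Fin r → K)) → Fin R → ℤ :=
    fun P t => ω.repr (U (P (finProdFinEquiv.symm (e t).1).1) (finProdFinEquiv.symm (e t).1).2)
      (e t).2 with hZ
  have hsum : ∀ P i, vc ω e (Z P) i =
      U (P (finProdFinEquiv.symm i).1) (finProdFinEquiv.symm i).2 := by
    intro P i
    unfold vc
    simp only [hZ, Equiv.apply_symm_apply]
    exact ω.sum_repr _
  have hsp : ∀ P i l, (sp (fun i => ((vc ω e (Z P) i : 𝓞 K) : K))) i l = ((U (P i) l : 𝓞 K) : K) := by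
    intro P i l
    unfold sp
    simp only [hsum, Equiv.symm_apply_apply]
  have hZinj : Function.Injective Z := by
    intro P Q hPQ
    funext i
    apply hU
    funext l
    have h1 := hsum P (finProdFinEquiv (i, l))
    rw [hPQ, hsum Q] at h1
    simp only [Equiv.symm_apply_apply] at h1
    exact h1.symm
  have hmaps : ∀ P ∈ {P : Fin 2 → Projectivization K (Fin r → K) | (∀ i, (P i).mulHeight ≤ B) ∧
      Bad fun i => (P i).rep}, Z P ∈ ((Cube R H : Set (Fin R → ℤ)) ∩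
        {z : Fin R → ℤ | Bad (sp fun i => ((vc ω e z i : 𝓞 K) : K))}) := by
    rintro P ⟨hP, hbad⟩
    constructor
    · rw [Finset.mem_coe, Pool.Agent.FAM.mem_Cube]
      intro t
      have h1 := hco (C * T) (U (P (finProdFinEquiv.symm (e t).1).1)
        (finProdFinEquiv.symm (e t).1).2)
        (fun v => (hrep (P (finProdFinEquiv.symm (e t).1).1)).2 B (hP _)
          (finProdFinEquiv.symm (e t).1).2 v) (e t).2
      have h2 : |((Z P t : ℤ) : ℝ)| ≤ (H : ℝ) := h1.trans hHY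
      have h3 : |Z P t| ≤ (H : ℤ) := by exact_mod_cast h2
      exact h3
    · choose a ha ha' using fun i => (hrep (P i)).1
      have h1 : (sp fun i => ((vc ω e (Z P) i : 𝓞 K) : K)) = fun i => a i • (P i).rep := by
        funext i l
        rw [hsp, ha']
      change Bad (sp fun i => ((vc ω e (Z P) i : 𝓞 K) : K))
      rw [h1]
      exact hsc a _ ha hbad
  have hfin : ((Cube R H : Set (Fin R → ℤ)) ∩
      {z : Fin R → ℤ | Bad (sp fun i => ((vc ω e z i : 𝓞 K) : K))}).Finite :=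
    (Finset.finite_toSet _).inter_of_left _
  have hle := Set.ncard_le_ncard_of_injOn Z hmaps hZinj.injOn hfin
  have hcube := hH₀ H hHH
  have hpow : (2 * (H : ℝ) + 1) ^ R ≤ (5 * (C₁ * C)) ^ R * (B ^ r) ^ 2 := by
    have h1 : 2 * (H : ℝ) + 1 ≤ 5 * (C₁ * C) * T := by
      have : 5 * (C₁ * C) * T = 5 * Y := by rw [hY]; ring
      rw [this]
      linarith
    calc (2 * (H : ℝ) + 1) ^ R ≤ (5 * (C₁ * C) * T) ^ R :=
          pow_le_pow_left₀ (by positivity) h1 R
      _ = (5 * (C₁ * C)) ^ R * (B ^ r) ^ 2 := by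
          rw [mul_pow, ← hTn, ← pow_mul, ← pow_mul, hR]
          congr 2
          ring
  have hl := hlow B hB1
  have hcard : ({P : Fin 2 → Projectivization K (Fin r → K) | ∀ i, (P i).mulHeight ≤ B}.ncard : ℝ) =
      ({P : Projectivization K (Fin r → K) | P.mulHeight ≤ B}.ncard : ℝ) ^ 2 := by
    have h1 : {P : Fin 2 → Projectivization K (Fin r → K) | ∀ i, (P i).mulHeight ≤ B} =
        Set.pi Set.univ fun _ : Fin 2 => {P : Projectivization K (Fin r → K) | P.mulHeight ≤ B} := by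
      ext P
      simp
    rw [h1, ← Nat.card_coe_set_eq, Nat.card_congr (Equiv.Set.univPi _), Nat.card_pi,
      Fin.prod_univ_two, Nat.card_coe_set_eq, Nat.cast_mul, sq]
  have hB0' : 0 ≤ c * B ^ r := by positivity
  calc ({P : Fin 2 → Projectivization K (Fin r → K) | (∀ i, (P i).mulHeight ≤ B) ∧
        Bad fun i => (P i).rep}.ncard : ℝ)
      ≤ (((Cube R H : Set (Fin R → ℤ)) ∩
        {z : Fin R → ℤ | Bad (sp fun i => ((vc ω e z i : 𝓞 K) : K))}).ncard : ℝ) := by
        exact_mod_cast hle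
    _ ≤ ε * c ^ 2 / (5 * (C₁ * C)) ^ R * (2 * (H : ℝ) + 1) ^ R := hcube
    _ ≤ ε * c ^ 2 / (5 * (C₁ * C)) ^ R * ((5 * (C₁ * C)) ^ R * (B ^ r) ^ 2) :=
        mul_le_mul_of_nonneg_left hpow (by positivity)
    _ = ε * (c * B ^ r) ^ 2 := by
        have : (5 * (C₁ * C)) ^ R ≠ 0 := by positivity
        field_simp
    _ ≤ ε * ({P : Projectivization K (Fin r → K) | P.mulHeight ≤ B}.ncard : ℝ) ^ 2 :=
        mul_le_mul_of_nonneg_left (pow_le_pow_left₀ hB0' hl 2) hε.le
    _ = ε * ({P : Fin 2 → Projectivization K (Fin r → K) |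
          ∀ i, (P i).mulHeight ≤ B}.ncard : ℝ) := by rw [hcard]

end Pool.Agent.PLR
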