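import Mathlib
import Pool.Agent.PLR.Defs
import Pool.Agent.PLY.Ctr
import Pool.Agent.PLY.Fre

set_option autoImplicit false

/-!
# The local condition suffices
-/

namespace Pool.Agent.PLR

open NumberField IsDedekindDomain
open scoped WithZero
open Pool.Agent.PNH (Tup app mp IsMor Cert)
open Pool.Agent.AAP
open Pool.Agent.PLY (Gd)
open Pool.Agent.TameArb (PosDens)
open Pool.Agent.AAP.NMpA (unit_iff)

/-- the local condition suffices -/
theorem good_rf {K : Type} [Field K] [NumberField K] {d : ℕ} (hd : 2 ≤ d)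
    (v : HeightOneSpectrum (𝓞 K)) (t : Fin (2 * (d + 2)) → 𝓞 K) (h0 : sp t 0 0 ∈ v.asIdeal)
    (h0' : sp t 1 0 ∉ v.asIdeal)
    (h1 : ∀ z : Fin 2 → 𝓞 K ⧸ v.asIdeal, z ≠ 0 → MvPolynomial.eval z
      (fm fun j : Fin (d + 1) => Ideal.Quotient.mk v.asIdeal (sp t 0 j.succ)) ≠ 0)
    (hmor : IsMor d K (rf (sp fun i => (t i : K)))) : Gd d (rf (sp fun i => (t i : K))) := by
  have hu : v.valuation K ((sp t 1 0 : 𝓞 K) : K) = 1 := by
    rw [unit_iff, Ne, Ideal.Quotient.eq_zero_iff_mem]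
    exact h0'
  refine ⟨hmor, fun Γ hΓ => PLY.contr hd hmor v 1 0 (by decide) (fun m => ?_) (fun m => ?_)
    (fun x hx => ?_) Γ hΓ⟩
  · have h2 : (rf (sp fun i => (t i : K))) 1 = MvPolynomial.C ((sp t 0 0 : 𝓞 K) : K) *
        fm fun j : Fin (d + 1) => ((sp t 1 j.succ : 𝓞 K) : K) := rfl
    rw [h2, MvPolynomial.coeff_C_mul, map_mul, mul_comm]
    exact TameArb.mul_lt_one_aux (PLY.coeff_le (fun j => v.valuation_le_one _) m)
      ((v.valuation_lt_one_iff_mem (K := K) _).2 h0)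
  · have h2 : (rf (sp fun i => (t i : K))) 0 = MvPolynomial.C ((sp t 1 0 : 𝓞 K) : K) *
        fm fun j : Fin (d + 1) => ((sp t 0 j.succ : 𝓞 K) : K) := rfl
    rw [h2, MvPolynomial.coeff_C_mul, map_mul, hu, one_mul]
    exact PLY.coeff_le (fun j => v.valuation_le_one _) m
  · have h2 : (rf (sp fun i => (t i : K))) 0 = MvPolynomial.C ((sp t 1 0 : 𝓞 K) : K) *
        fm fun j : Fin (d + 1) => ((sp t 0 j.succ : 𝓞 K) : K) := rfl
    rw [h2, map_mul, MvPolynomial.eval_C, map_mul, hu, one_mul]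
    exact PLY.unit_of_free v (fun j : Fin (d + 1) => sp t 0 j.succ) h1 x hx

end Pool.Agent.PLR
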