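import Mathlib
import Pool.Agent.PLR.Defs
import Pool.Agent.PLR.Cyl
import Pool.Agent.PLY.Mor
import Pool.Agent.AAP.NulM

set_option autoImplicit false

/-!
# 100 per cent of the pairs numerator, denominator are rational maps of degree `d`
-/

namespace Pool.Agent.PLR

open NumberField
open Pool.Agent.PNH (Tup app mp IsMor)
open Pool.Agent.AAP (fm tp vc)
open Pool.Agent.LIM (Null)

namespace Mo2

/-- nonzero constants in front of the two forms do not matter -/
theorem isMor_of {K : Type} [Field K] {d : ℕ} (t : Fin 2 → Fin (d + 2) → K) (h0 : t 0 0 ≠ 0)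
    (h1 : t 1 0 ≠ 0) (t' : Fin (2 * (d + 1)) → K)
    (ht : ∀ i (j : Fin (d + 1)), t' (finProdFinEquiv (i, j)) = t i j.succ)
    (h : IsMor d K (tp (d := d) t')) : IsMor d K (rf t) := by
  have hfm : ∀ i, tp (d := d) t' i = fm fun j : Fin (d + 1) => t i j.succ := fun i => by
    change (fm fun j => t' (finProdFinEquiv (i, j))) = _
    congr 1
    funext j
    exact ht i j
  refine ⟨fun i => ?_, fun x hx => h.2 x ?_⟩
  · fin_cases i
    · have h2 := (MvPolynomial.isHomogeneous_C (Fin 2) (t 1 0)).mul (h.1 0)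
      rw [zero_add, hfm] at h2
      exact h2
    · have h2 := (MvPolynomial.isHomogeneous_C (Fin 2) (t 0 0)).mul (h.1 1)
      rw [zero_add, hfm] at h2
      exact h2
  · funext i
    change MvPolynomial.eval x (MvPolynomial.map (algebraMap K (AlgebraicClosure K))
      (tp (d := d) t' i)) = 0
    rw [hfm]
    fin_cases i
    · have e0 := congrFun hx 0
      change MvPolynomial.eval x (MvPolynomial.map (algebraMap K (AlgebraicClosure K))
        (MvPolynomial.C (t 1 0) * fm fun j : Fin (d + 1) => t 0 j.succ)) = 0 at e0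
      rw [map_mul, map_mul, MvPolynomial.map_C, MvPolynomial.eval_C, mul_eq_zero] at e0
      exact e0.resolve_left (fun h => h1 ((map_eq_zero _).1 h))
    · have e0 := congrFun hx 1
      change MvPolynomial.eval x (MvPolynomial.map (algebraMap K (AlgebraicClosure K))
        (MvPolynomial.C (t 0 0) * fm fun j : Fin (d + 1) => t 1 j.succ)) = 0 at e0
      rw [map_mul, map_mul, MvPolynomial.map_C, MvPolynomial.eval_C, mul_eq_zero] at e0
      exact e0.resolve_left (fun h => h0 ((map_eq_zero _).1 h))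

theorem null_coord {K : Type} [Field K] [NumberField K] {r m R : ℕ}
    (ω : Module.Basis (Fin m) ℤ (𝓞 K)) (e : Fin R ≃ Fin r × Fin m) (i : Fin r) :
    Null {s : Fin R → ℤ | ((vc ω e s i : 𝓞 K) : K) = 0} := by
  classical
  refine LIM.Null.mono (fun s hs => ?_) (PLY.Mor.null_linK ω e (Pi.single i 1)
    (fun h => by
      have h1 := congrFun h i
      rw [Pi.single_eq_same] at h1
      exact one_ne_zero h1))
  have hs' : ((vc ω e s i : 𝓞 K) : K) = 0 := hs
  change ∑ j, (Pi.single i 1 : Fin r → K) j * ((vc ω e s j : 𝓞 K) : K) = 0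
  rw [Finset.sum_eq_single i]
  · rw [hs', mul_zero]
  · intro j _ hj
    rw [Pi.single_eq_of_ne hj, zero_mul]
  · intro h3
    exact absurd (Finset.mem_univ _) h3

end Mo2

/-- PLR/Mo2 (2): 100 per cent are rational maps of degree `d` -/
theorem null_rf {K : Type} [Field K] [NumberField K] {d : ℕ} (hd : 2 ≤ d) {m R : ℕ}
    (ω : Module.Basis (Fin m) ℤ (𝓞 K)) (e : Fin R ≃ Fin (2 * (d + 2)) × Fin m) :
    Null {s : Fin R → ℤ | ¬ IsMor d K (rf (sp fun i => ((vc ω e s i : 𝓞 K) : K)))} := by
  classical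
  let e' : Fin (2 * (d + 1) * m) ≃ Fin (2 * (d + 1)) × Fin m := finProdFinEquiv.symm
  let ι : Fin (2 * (d + 1) * m) → Fin R := fun k =>
    e.symm (finProdFinEquiv ((finProdFinEquiv.symm (e' k).1 : Fin 2 × Fin (d + 1)).1,
      (finProdFinEquiv.symm (e' k).1 : Fin 2 × Fin (d + 1)).2.succ), (e' k).2)
  have hι : Function.Injective ι := by
    intro k k' hk
    have h1 := e.symm.injective hk
    have h2 := Prod.ext_iff.1 h1
    have h3 := Prod.ext_iff.1 (finProdFinEquiv.injective h2.1)
    have h4 : finProdFinEquiv.symm (e' k).1 = finProdFinEquiv.symm (e' k').1 :=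
      Prod.ext h3.1 (Fin.succ_injective _ h3.2)
    exact e'.injective (Prod.ext (finProdFinEquiv.symm.injective h4) h2.2)
  have hv : ∀ (s : Fin R → ℤ) i (j : Fin (d + 1)),
      vc ω e' (fun k => s (ι k)) (finProdFinEquiv (i, j)) =
        vc ω e s (finProdFinEquiv (i, j.succ)) := by
    intro s i j
    unfold vc
    refine Finset.sum_congr rfl fun l _ => ?_
    have h1 : ι (e'.symm (finProdFinEquiv (i, j), l)) = e.symm (finProdFinEquiv (i, j.succ), l) := by
      simp only [ι, Equiv.apply_symm_apply, Equiv.symm_apply_apply]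
    change s (ι (e'.symm (finProdFinEquiv (i, j), l))) • ω l = _
    rw [h1]
  have hN := null_cyl ι hι (AAP.null_mor hd ω e')
  have h0 := Mo2.null_coord (K := K) ω e (finProdFinEquiv ((0 : Fin 2), (0 : Fin (d + 2))))
  have h1 := Mo2.null_coord (K := K) ω e (finProdFinEquiv ((1 : Fin 2), (0 : Fin (d + 2))))
  refine LIM.Null.mono (fun s hs => ?_) ((h0.union h1).union hN)
  have hs' : ¬ IsMor d K (rf (sp fun i => ((vc ω e s i : 𝓞 K) : K))) := hs
  by_contra hcon
  rw [Set.mem_union, Set.mem_union, not_or, not_or] at hcon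
  obtain ⟨⟨c0, c1⟩, c2⟩ := hcon
  apply hs'
  have c2' : IsMor d K (tp (d := d) fun i =>
      ((vc ω e' (fun k => s (ι k)) i : 𝓞 K) : K)) := by
    by_contra h
    exact c2 h
  exact Mo2.isMor_of _ c0 c1 _ (fun i j => by
    change ((vc ω e' (fun k => s (ι k)) (finProdFinEquiv (i, j)) : 𝓞 K) : K) = _
    rw [hv]
    rfl) c2'

end Pool.Agent.PLR
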