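import Mathlib
import Pool.Agent.PLR.Defs
import Pool.Agent.PLR.Cb2
import Pool.Agent.PLR.Mo2
import Pool.Agent.PLR.Loc2
import Pool.Agent.PLY.SvP
import Pool.Agent.LIM.NullS

set_option autoImplicit false

/-!
# 100 per cent of the rational maps are good, in boxes
-/

namespace Pool.Agent.PLR

open NumberField IsDedekindDomain
open Pool.Agent.PNH (Tup app mp IsMor Cert)
open Pool.Agent.AAP (wd fm vc SP Periodic Free nv sieve)
open Pool.Agent.PLY (Gd)
open Pool.Agent.TameArb (PosDens)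
open Pool.Agent.LIM (Null)

/-- outside a null set some prime `v` divides `b` and not `b'`, and the form with coefficients `u`
has no zero modulo `v` -/
theorem null_rat {K : Type} [Field K] [NumberField K] {d m R : ℕ} (hd : 2 ≤ d)
    (ω : Module.Basis (Fin m) ℤ (𝓞 K)) (e : Fin R ≃ Fin (2 * (d + 2)) × Fin m) :
    Null {s : Fin R → ℤ | ¬ ∃ v : HeightOneSpectrum (𝓞 K), sp (vc ω e s) 0 0 ∈ v.asIdeal ∧
      sp (vc ω e s) 1 0 ∉ v.asIdeal ∧ ∀ z : Fin 2 → 𝓞 K ⧸ v.asIdeal, z ≠ 0 →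
        MvPolynomial.eval z
          (fm fun j : Fin (d + 1) =>
            Ideal.Quotient.mk v.asIdeal (sp (vc ω e s) 0 j.succ)) ≠ 0} := by
  classical
  set B' : Set (HeightOneSpectrum (𝓞 K)) := {v | Ideal.absNorm v.asIdeal < 8 * d} with hB'
  have hB'f : B'.Finite := AAP.NMpA.small_norm _
  refine Null.mono ?_ (sieve ω e (Set.univ \ B')
    (fun v => {t : Fin (2 * (d + 2)) → 𝓞 K ⧸ v.asIdeal | ¬ (sp t 0 0 = 0 ∧ sp t 1 0 ≠ 0 ∧
      ∀ z : Fin 2 → 𝓞 K ⧸ v.asIdeal, z ≠ 0 →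
        MvPolynomial.eval z (fm fun j : Fin (d + 1) => sp t 0 j.succ) ≠ 0)})
    (fun v => (1 / (8 * d : ℝ)) * ((Ideal.absNorm v.asIdeal : ℝ))⁻¹) (fun v _ => by positivity)
    ?_ ?_)
  · rintro s hs v ⟨-, hv⟩ ⟨h0, h0', h1⟩
    apply hs
    exact ⟨v, Ideal.Quotient.eq_zero_iff_mem.1 h0, fun h => h0' (Ideal.Quotient.eq_zero_iff_mem.2 h),
      h1⟩
  · rintro v ⟨-, hv⟩
    have hfin : Finite (𝓞 K ⧸ v.asIdeal) := Ideal.finiteQuotientOfFreeOfNeBot _ v.ne_bot
    have hmax := v.isMaximal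
    let _ := Ideal.Quotient.field v.asIdeal
    have hq : Nat.card (𝓞 K ⧸ v.asIdeal) = Ideal.absNorm v.asIdeal := by
      rw [Ideal.absNorm_apply]
      rfl
    have h1 : 8 * d ≤ Nat.card (𝓞 K ⧸ v.asIdeal) := by
      rw [hq]
      by_contra hcon
      exact hv (not_le.1 hcon)
    have h2 := card_bad2 hd h1
    rw [hq] at h2
    exact h2
  · intro h
    refine AAP.PosDens.div (PLY.pd_univ K) hB'f ?_
    have hd0 : (0 : ℝ) < 8 * d := by
      have : 0 < d := by omega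
      positivity
    have h2 := h.mul_left (8 * d : ℝ)
    refine h2.congr fun v => ?_
    rw [← mul_assoc, mul_one_div_cancel hd0.ne', one_mul]

theorem null_gr {K : Type} [Field K] [NumberField K] {d : ℕ} (hd : 2 ≤ d) {m R : ℕ}
    (ω : Module.Basis (Fin m) ℤ (𝓞 K)) (e : Fin R ≃ Fin (2 * (d + 2)) × Fin m) :
    Null {s : Fin R → ℤ | ¬ Gd d (rf (sp fun i => ((vc ω e s i : 𝓞 K) : K)))} := by
  refine Null.mono ?_ ((null_rf hd ω e).union (null_rat hd ω e))
  intro s hs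
  by_contra hcon
  rw [Set.mem_union, not_or] at hcon
  obtain ⟨h1, h2⟩ := hcon
  rw [Set.mem_ofPred_eq, not_not] at h1 h2
  obtain ⟨v, h0, h0', hz⟩ := h2
  exact hs (good_rf hd v (vc ω e s) h0 h0' hz h1)

end Pool.Agent.PLR
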