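import Mathlib
import Pool.Agent.PLR.Defs
import Pool.Agent.PLR.Den2
import Pool.Agent.PLR.Aff2
import Pool.Agent.PLR.NulR
import Pool.Agent.PLY.Hgt

set_option autoImplicit false

/-!
# Random numerators and denominators, ordered by height
-/

namespace Pool.Agent.PLR

open NumberField IsDedekindDomain
open Pool.Agent.PNH (Tup app mp IsMor Cert)
open Pool.Agent.AAP (wd fm vc SP Periodic Free nv)
open Pool.Agent.PLY (Gd)
open Pool.Agent.TameArb (PosDens)
open Pool.Agent.LIM (Null)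
open Pool.Agent.HTK (sc)

theorem rf_sc {K : Type} [Field K] {d : ℕ} (t : Fin 2 → Fin (d + 2) → K) (ht : ∀ i, t i 0 ≠ 0) :
    sc (t 0 0 * t 1 0)⁻¹ (rf t) = fun i => fm fun l : Fin (d + 1) => t i l.succ / t i 0 := by
  have h0 := ht 0
  have h1 := ht 1
  funext i
  fin_cases i
  · change MvPolynomial.C (t 0 0 * t 1 0)⁻¹ * (MvPolynomial.C (t 1 0) *
      fm fun j : Fin (d + 1) => t 0 j.succ) = fm fun l : Fin (d + 1) => t 0 l.succ / t 0 0
    rw [← mul_assoc, ← map_mul, show (t 0 0 * t 1 0)⁻¹ * t 1 0 = (t 0 0)⁻¹ by field_simp]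
    unfold fm
    rw [Finset.mul_sum]
    refine Finset.sum_congr rfl fun j _ => ?_
    simp only [div_eq_inv_mul, map_mul]
    ring
  · change MvPolynomial.C (t 0 0 * t 1 0)⁻¹ * (MvPolynomial.C (t 0 0) *
      fm fun j : Fin (d + 1) => t 1 j.succ) = fm fun l : Fin (d + 1) => t 1 l.succ / t 1 0
    rw [← mul_assoc, ← map_mul, show (t 0 0 * t 1 0)⁻¹ * t 0 0 = (t 1 0)⁻¹ by field_simp]
    unfold fm
    rw [Finset.mul_sum]
    refine Finset.sum_congr rfl fun j _ => ?_
    simp only [div_eq_inv_mul, map_mul]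
    ring

/-- PLR/Hgt2 (7): 100 per cent of the rational maps, numerator and denominator by height
(cites 4, 5, 6) -/
theorem height_rat (K : Type) [Field K] [NumberField K] {d : ℕ} (hd : 2 ≤ d) (ε : ℝ)
    (hε : 0 < ε) : ∃ B₀ : ℝ, ∀ B : ℝ, B₀ ≤ B →
      (({s : Fin 2 → Fin (d + 1) → K |
          (∀ i, Height.mulHeight (Fin.cons 1 (s i) : Fin (d + 1 + 1) → K) ≤ B) ∧
          ¬ Gd d fun i => fm (s i)}.ncard : ℕ) : ℝ) ≤
        ε * ({s : Fin 2 → Fin (d + 1) → K |
          ∀ i, Height.mulHeight (Fin.cons 1 (s i) : Fin (d + 1 + 1) → K) ≤ B}.ncard : ℕ) := by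
  refine aff2 (fun s : Fin 2 → Fin (d + 1) → K => Gd d fun i => fm (s i)) (fun ε hε => ?_) ε hε
  let n := Module.finrank ℤ (𝓞 K)
  let ω : Module.Basis (Fin n) ℤ (𝓞 K) := Module.finBasis ℤ (𝓞 K)
  let e : Fin ((2 * (d + 2)) * n) ≃ Fin (2 * (d + 2)) × Fin n := finProdFinEquiv.symm
  refine den2 K (d + 2) (by omega) ω e
    (fun t => (∃ i, t i 0 = 0) ∨ ¬ Gd d fun i => fm fun l : Fin (d + 1) => t i l.succ / t i 0)
    ?_ ?_ ε hε
  · rintro c t hc (⟨i, h⟩ | h)
    · exact Or.inl ⟨i, by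
        change c i * t i 0 = 0
        rw [h, mul_zero]⟩
    · refine Or.inr ?_
      have h1 : (fun i => fm fun l : Fin (d + 1) => (c i • t i) l.succ / (c i • t i) 0) =
          (fun i => fm fun l : Fin (d + 1) => t i l.succ / t i 0) := by
        funext i
        congr 1
        funext l
        simp only [Pi.smul_apply, smul_eq_mul]
        rw [mul_div_mul_left _ _ (hc i)]
      rw [h1]
      exact h
  · refine (((PLY.HgtA.null_zero ω e (finProdFinEquiv ((0 : Fin 2), (0 : Fin (d + 2))))).union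
      (PLY.HgtA.null_zero ω e (finProdFinEquiv ((1 : Fin 2), (0 : Fin (d + 2)))))).union
      (null_gr hd ω e)).mono ?_
    intro z hz
    by_cases h0 : vc ω e z (finProdFinEquiv ((0 : Fin 2), (0 : Fin (d + 2)))) = 0
    · exact Or.inl (Or.inl h0)
    by_cases h1 : vc ω e z (finProdFinEquiv ((1 : Fin 2), (0 : Fin (d + 2)))) = 0
    · exact Or.inl (Or.inr h1)
    right
    have ht : ∀ i, (sp fun i => ((vc ω e z i : 𝓞 K) : K) : Fin 2 → Fin (d + 2) → K) i 0 ≠ 0 := by
      intro i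
      fin_cases i
      · change ((vc ω e z (finProdFinEquiv ((0 : Fin 2), (0 : Fin (d + 2)))) : 𝓞 K) : K) ≠ 0
        exact_mod_cast h0
      · change ((vc ω e z (finProdFinEquiv ((1 : Fin 2), (0 : Fin (d + 2)))) : 𝓞 K) : K) ≠ 0
        exact_mod_cast h1
    intro hg
    rcases hz with ⟨i, h⟩ | h
    · exact ht i h
    · refine h ?_
      have h2 := PLY.HgtA.gd_sc (inv_ne_zero (mul_ne_zero (ht 0) (ht 1))) hg
      rw [rf_sc _ ht] at h2
      exact h2

end Pool.Agent.PLR
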